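import Pool.Agent.MNV.Stmts
import Pool.Agent.Helper28_MNU.MAIN

set_option autoImplicit false

/-! # MNU row SPU -/

namespace Pool.Agent.MNV.H28

open Polynomial NumberField
open Pool.Agent.MNT Pool.Agent.MNU

/-- splitting field -/
theorem split (hpel : PelStmt) (hb : BchStmt) (hext : UBT.Ext1Stmt) (g : ℕ) (K : Type) [Field K] [NumberField K]
    (f : K[X]) (hd : f.natDegree = 2 * g + 1) (hsq : Squarefree f)
    (x y : Fin (2 * g + 9) → K) (hx : Function.Injective x) (hon : ∀ i, y i ^ 2 = f.eval (x i))
    (hne : ∀ i, y i ≠ 0) (htor : ∀ i, ∃ N, TorB f (x i) (y i) N) :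
    ∃ (E : Type) (_ : Field E) (_ : NumberField E) (_ : Algebra K E) (e : E)
      (θ : Fin (2 * g + 1) → E),
      Module.finrank ℚ E ≤ Module.finrank ℚ K * (2 * g + 1).factorial ∧
      f.map (algebraMap K E) = C e * ∏ j, (X - C (θ j)) ∧
      Cfg g (Sum.elim θ fun i => algebraMap K E (x i)) e := by
  obtain ⟨E, _, _, _, hs, hdeg⟩ := hext K f hsq.ne_zero
  have hinj : Function.Injective (algebraMap K E) := (algebraMap K E).injective
  have hf0 : f.map (algebraMap K E) ≠ 0 := (Polynomial.map_ne_zero_iff hinj).2 hsq.ne_zero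
  have hsq' : Squarefree (f.map (algebraMap K E)) :=
    (PerfectField.separable_iff_squarefree.2 hsq).map.squarefree
  have hcard : (f.map (algebraMap K E)).roots.card = 2 * g + 1 := by
    rw [← hs.natDegree_eq_card_roots, natDegree_map, hd]
  obtain ⟨L, hL⟩ := Quot.exists_rep (f.map (algebraMap K E)).roots
  have hLc : L.length = 2 * g + 1 := by
    rw [← hcard, ← hL]
    rfl
  have hprod : f.map (algebraMap K E) = C (f.map (algebraMap K E)).leadingCoeff *
      ∏ j : Fin (2 * g + 1), (X - C (L.get (Fin.cast hLc.symm j))) := by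
    conv_lhs => rw [hs.eq_prod_roots]
    congr 1
    rw [← hL]
    have h1 : (Multiset.map (fun a => X - C a) (Quot.mk _ L : Multiset E)).prod =
        (L.map fun a => X - C a).prod := by
      show (Multiset.map (fun a => X - C a) (L : Multiset E)).prod = _
      rw [Multiset.map_coe, Multiset.prod_coe]
    rw [h1]
    have h2 : (L.map fun a => (X - C a : E[X])).prod =
        ∏ j : Fin L.length, (X - C (L.get j)) := by
      rw [← List.prod_ofFn]
      congr 1
      apply List.ext_get
      · simp
      · intro n h1 h2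
        simp
    rw [h2]
    exact (Fin.prod_congr' (fun j => (X - C (L.get j) : E[X])) hLc.symm).symm
  refine ⟨E, inferInstance, inferInstance, inferInstance, _, _, ?_, hprod, ?_⟩
  · rw [← Module.finrank_mul_finrank ℚ K E]
    apply Nat.mul_le_mul_left
    rw [← hd]
    exact hdeg
  · apply MNU.H28.cfg_of hpel g (f.map (algebraMap K E)) (by rw [natDegree_map, hd]) hsq' _
      (fun i => algebraMap K E (y i)) (hinj.comp hx) _ _ _ _ _ hprod
    · intro i
      rw [← map_pow, hon i]
      exact (Polynomial.eval_map_apply (algebraMap K E) (x i)).symm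
    · intro i
      exact (_root_.map_ne_zero _).2 (hne i)
    · intro i
      obtain ⟨N, hN⟩ := htor i
      exact ⟨N, (hb K E (algebraMap K E) f (x i) (y i) N (hd ▸ ⟨g, rfl⟩)).1 hN⟩


theorem spu (hpel : PelStmt) (hb : BchStmt) (hext : UBT.Ext1Stmt) : SpuStmt :=
  fun g K _ _ f hd hsq x y hx hon hne htor => split hpel hb hext g K f hd hsq x y hx hon hne htor

end Pool.Agent.MNV.H28
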