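import Pool.Agent.Helper28_MNV.MAIN
import Pool.Agent.Helper28_MNU.ASM
import Pool.Agent.Helper92_MNU.LBU
import Pool.Agent.Helper31_MNV.LDC
import Pool.Agent.Helper87_MNV.MPT
import Pool.Agent.Helper41_MNV.HXT
import Pool.Agent.Helper13_MNV.RDH
import Pool.Agent.Helper70_MNV.LDT
import Pool.Agent.Helper70_MNV.RFN
import Pool.Agent.Helper70_MNV.RTB
import Pool.Agent.Helper70_MNV.SPV
import Pool.Agent.Helper28_MNV.SPU

set_option autoImplicit false

/-!
# MNV: all rows put together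
-/

namespace Pool.Agent.MNV.All

open Pool.Agent.MNT Pool.Agent.MNU Pool.Agent.MNV

theorem lbu : LbuStmt := MNU.H92.lbu MNU.All.lou MNU.All.ote MNU.All.nbe MNT.All.otn
theorem hgu : HguStmt := MNU.H38.hgu lbu MNT.H95.pfl BHT.ev UBT.ext1
theorem fnu : FnuStmt := MNU.H69.fnu hgu H76BHT.ncs
theorem tjs : TjsStmt := MNU.H67.tjs hgu MNU.All.gpr MNU.All.prp
theorem ldc : LdcStmt := H31.ldc MNU.All.hsi MNU.All.mob_ MNU.All.moi MNU.All.cne MNT.All.pel
theorem ldt : LdtStmt := H70.ldt ldc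
theorem rdh : RdhStmt := H13.rdh hgu H41.hxt
theorem rfn : RfnStmt := H70.rfn rdh H76BHT.ncs
theorem rtb : RtbStmt := H70.rtb rdh MNU.All.gpr MNU.All.prp
theorem mpt (hs : SpuStmt) : MptStmt := H87.mpt hs

theorem final' (hs : SpuStmt) (g : ℕ) (hg : 2 ≤ g) :
    HeightBound g ∧ FinitelyMany g ∧ FinitelyManyCurves g :=
  have h := MNU.H28.main MNT.All.pel hgu fnu tjs MNU.All.bcj hs
    (MNU.H31.cfm MNU.All.hsi MNU.All.mob_ MNU.All.moi MNU.All.cne MNT.All.pel MNU.All.bcj tjs) g hg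
  ⟨h.1, h.2.1, H28.main ldt (mpt hs) H70.spv rfn rtb MNU.All.bcj g hg⟩

theorem final (g : ℕ) (hg : 2 ≤ g) :
    HeightBound g ∧ FinitelyMany g ∧ FinitelyManyCurves g :=
  final' (H28.spu MNT.All.pel MNT.All.bch UBT.ext1) g hg

end Pool.Agent.MNV.All
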